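import Pool.Agent.Run7.h876.MN.Surf

/-!
# Nagao sums for linear systems of curves on a surface

`K` is any number field, `Y ⊂ ℙⁿ` the surface `g = 0` over its integers, and `X_t ⊂ Y` the curve cut out by
`∑ t_j f_j`, with parameters `t_j` in the ring of integers.  Outside of a finite set of places, over the
residue field and its quadratic extension, the surface has `q² + ρ q + O(√q)` points and the linear system has
`e` base points, and over the quadratic extension a member separates each point which is not a base point from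
any three others.  So `Y` is a surface whose cohomology is algebraic, of Picard number `ρ`, and the Jacobian
of the generic member has the rank `r = ρ + e - 1`.

1. The averages of the traces of Frobenius over the fibres at `v` are `-r + O(Nv^(-1/4))`: the analytic
generalized Nagao conjecture, for all linear systems.
2. The Nagao sums `-(1 / log Z) ∑ a_v(X_t) (log Nv / Nv) W(log Nv / log Z)` of the single members are asymptotically
normal with the mean `r ∫ W` and the variance `∫ x W(x)²`, for `Z` up to a power of the size of `t`.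
3. For a weight with `∫ W = 1`, the proportion of the members for which `r` is the integer nearest to the Nagao
sum tends to `Φ(1/(2σ)) - Φ(-1/(2σ))`, `σ² = ∫ x W(x)²`; and for every `ε > 0` there is a weight for which this
is at least `1 - ε`.
-/

set_option autoImplicit false
open NumberField IsDedekindDomain Filter Topology

namespace Pool.Agent.Results.MP_3d3918_nt.NagaoSumsOnSurfaces

open Run7.h876.LN
open Run7.h876.MN
open Run7.h876.LS (res)
open Run7.h876.MM (kv nv SZ)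
open Run7.h9.BS (prop Phi)

/-- **Nagao sums for linear systems of curves on a surface.** -/
theorem result (K : Type) [Field K] [NumberField K] (J : Type) [Fintype J] [DecidableEq J] [Nonempty J] (L : Type) (n d : ℕ)
    -- the surface, the linear system, and a multiple of the discriminant
    (g : L → MvPolynomial (Fin (n + 1)) (𝓞 K)) (hg : ∀ l, ∃ d, (g l).IsHomogeneous d)
    (f : J → MvPolynomial (Fin (n + 1)) (𝓞 K)) (hf : ∀ j, (f j).IsHomogeneous d)
    (Δ : MvPolynomial J (𝓞 K)) (hΔ : Δ ≠ 0)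
    -- the points of the surface and the base points
    (S : Set (HeightOneSpectrum (𝓞 K))) (hS : S.Finite) (ρ e r : ℕ) (hr : ρ + e = r + 1) (C₀ : ℝ)
    (hsep : ∀ v, v ∉ S → ∀ (E : Type) [Field E] [Fintype E] [Algebra (kv v) E], Module.finrank (kv v) E = 2 →
      SepY g f ((algebraMap (kv v) E).comp (res v)))
    (hY : ∀ v, v ∉ S → ∀ (E : Type) [Field E] [Fintype E] [Algebra (kv v) E], Module.finrank (kv v) E ≤ 2 →
      |(ptsY g ((algebraMap (kv v) E).comp (res v)) : ℝ) - (Fintype.card E : ℝ) ^ 2 - ρ * Fintype.card E| ≤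
        C₀ * Real.sqrt (Fintype.card E))
    (hz : ∀ v, v ∉ S → ∀ (E : Type) [Field E] [Fintype E] [Algebra (kv v) E], Module.finrank (kv v) E ≤ 2 →
      ptsBase g f ((algebraMap (kv v) E).comp (res v)) = e)
    -- the eigenvalues of Frobenius
    (b : ℕ) (α : (J → 𝓞 K) → HeightOneSpectrum (𝓞 K) → Fin b → ℂ) (hα : ∀ t, IsFrob g f Δ b t (α t)) :
    -- the fibre averages
    (∃ A : ℝ, ∀ v : HeightOneSpectrum (𝓞 K), |fibreAverage g f Δ v + r| ≤ A * (nv v : ℝ) ^ (-(1 / 4) : ℝ)) ∧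
    (∀ W : ℝ → ℝ, Continuous W → Tendsto (fun Z : ℕ => -((∑ v ∈ SZ K Z, fibreAverage g f Δ v * (Real.log (nv v) / nv v) *
      W (Real.log (nv v) / Real.log Z)) / Real.log Z)) atTop (𝓝 (r * ∫ y in (0 : ℝ)..1, W y))) ∧
    -- the law of the sums of the members
    (∀ W : ℝ → ℝ, Continuous W → 0 < (∫ y in (0 : ℝ)..1, y * W y ^ 2) →
      ∀ (ι : Type) [Fintype ι] [DecidableEq ι] (ω : Module.Basis ι ℤ (𝓞 K)) (a ε : ℝ), 0 < ε →
        ∃ C Z₀ : ℕ, ∀ Z : ℕ, Z₀ ≤ Z → ∀ H : J → ℕ, (∀ j, Z ^ C ≤ H j) →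
          |prop ω H {t | MvPolynomial.eval t Δ ≠ 0} (fun t => nagaoSum g f Δ Z W t ≤
            r * (∫ y in (0 : ℝ)..1, W y) + a * Real.sqrt (∫ y in (0 : ℝ)..1, y * W y ^ 2)) - Phi a| ≤ ε) ∧
    -- the proportion of the members for which the sum finds `r`
    (∀ W : ℝ → ℝ, Continuous W → (∫ y in (0 : ℝ)..1, W y) = 1 → 0 < (∫ y in (0 : ℝ)..1, y * W y ^ 2) ∧
      ∀ (ι : Type) [Fintype ι] [DecidableEq ι] (ω : Module.Basis ι ℤ (𝓞 K)) (ε : ℝ), 0 < ε →
        ∃ C Z₀ : ℕ, ∀ Z : ℕ, Z₀ ≤ Z → ∀ H : J → ℕ, (∀ j, Z ^ C ≤ H j) →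
          |prop ω H {t | MvPolynomial.eval t Δ ≠ 0} (fun t => |nagaoSum g f Δ Z W t - r| < 1 / 2) -
            (Phi (1 / 2 / Real.sqrt (∫ y in (0 : ℝ)..1, y * W y ^ 2)) -
              Phi (-(1 / 2 / Real.sqrt (∫ y in (0 : ℝ)..1, y * W y ^ 2))))| ≤ ε) ∧
    -- good weights
    (∀ ε : ℝ, 0 < ε → ∃ W : ℝ → ℝ, Continuous W ∧ (∫ y in (0 : ℝ)..1, W y) = 1 ∧
      ∀ (ι : Type) [Fintype ι] [DecidableEq ι] (ω : Module.Basis ι ℤ (𝓞 K)),
        ∃ C Z₀ : ℕ, ∀ Z : ℕ, Z₀ ≤ Z → ∀ H : J → ℕ, (∀ j, Z ^ C ≤ H j) →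
          1 - ε ≤ prop ω H {t | MvPolynomial.eval t Δ ≠ 0} (fun t => |nagaoSum g f Δ Z W t - r| < 1 / 2)) := by
  have H : Hyp g f S d ρ e r |C₀| := ⟨hg, hf, hr, hsep, fun v hv E _ _ _ hE => (hY v hv E hE).trans
    (mul_le_mul_of_nonneg_right (le_abs_self _) (Real.sqrt_nonneg _)), hz⟩
  have hC : 0 ≤ |C₀| := abs_nonneg _
  obtain ⟨c0, hc0⟩ := exists_ne hΔ
  obtain ⟨𝓣, ha, hr', hD⟩ := ln_data g f Δ hα hΔ hS hC H
  have hthin : ∀ (ι : Type) [Fintype ι] [DecidableEq ι] (ω : Module.Basis ι ℤ (𝓞 K)), ∃ Cb : ℝ, 0 ≤ Cb ∧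
      Run7.h876.EN.Thin ω {t : J → 𝓞 K | MvPolynomial.eval t Δ ≠ 0} Cb := fun ι _ _ ω =>
    Run7.h876.LS.thin_of_poly ω Δ c0 hc0 {t | MvPolynomial.eval t Δ ≠ 0} (fun t ht => ht)
  have hav : ∀ v, Run7.h876.PW.av Finset.univ (𝓣.a () v) = fibreAverage g f Δ v := fun v => by
    rw [ha]
    exact av_trN g f Δ hα v
  refine ⟨⟨𝓣.C, fun v => ?_⟩, fun W hW => ?_, fun W hW hV ι _ _ ω a ε hε => ?_, fun W hW h1 =>
    ⟨weight_pos hW (by rw [h1]; exact one_ne_zero), fun ι _ _ ω ε hε => ?_⟩, fun ε hε => ?_⟩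
  · have h := 𝓣.a_mean () v
    rw [hav, hr'] at h
    exact h
  · have h := one_mean hr' W hW
    simp only [hav] at h
    exact h
  · obtain ⟨Cb, hCb, hth⟩ := hthin ι ω
    exact one_clt ω hr' hD (nagaoSum g f Δ) (fun Z W t => SW_ln g f Δ hα ha Z W t) hCb hth W hW hV a hε
  · obtain ⟨Cb, hCb, hth⟩ := hthin ι ω
    exact one_near ω hr' hD (nagaoSum g f Δ) (fun Z W t => SW_ln g f Δ hα ha Z W t) hCb hth W hW h1 hε
  · obtain ⟨W, hW, h1, h⟩ := one_good hr' hD (nagaoSum g f Δ) (fun Z W t => SW_ln g f Δ hα ha Z W t) hε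
    refine ⟨W, hW, h1, fun ι _ _ ω => ?_⟩
    obtain ⟨Cb, hCb, hth⟩ := hthin ι ω
    exact h ι ω _ Cb hCb hth

end Pool.Agent.Results.MP_3d3918_nt.NagaoSumsOnSurfaces
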