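import Pool.Agent.Run7.h642.PL.Nf

/-!
# The analytic generalized Nagao conjecture for plane curves with a rational total space

Let `M` be a finitely generated field of characteristic zero and of transcendence degree `d` over `ℚ`,
which contains the number field `k`, and let `K = M(w_0, ..., w_l)` be the field of rational functions in
`l + 1` variables over `M`: the function field of a variety `𝒴 = Z × ℙ^(l+1)` over `k` of dimension
`m = d + l + 1`, where `Z` is any variety over `k` of dimension `d`, with the function field `M`.  Let `g`
and `h` be positive integers, and let `C` be a smooth affine curve over `K` with the equation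

  `H(x, y) = y^g + ∑ h_ij x^i y^j = 0`, where the sum is over `i + h j ≤ g h`, `j < g`,

which is transversal to infinity: the polynomial `ψ = y^g + ∑ h_(h(g-j), j) y^j` of the terms with
`i + h j = g h` is separable.  This is the general form of a smooth curve of degree `g h` in the weighted
projective plane `ℙ(1, 1, h)`; after a change of the coordinates over `K` every smooth plane curve of
degree `g` has such an equation with `h = 1`, and every hyperelliptic curve `y^2 = f(x)`, `deg f ≤ 2h`,
with or without a rational Weierstrass point, has one with `g = 2`; for instance all curves of genus two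
and all plane quartics are covered.

The smooth projective model `X` of the curve has the `g` additional geometric points `ψ = 0`, so it has `s`
additional closed points, where `s` is the number of the monic irreducible factors of `ψ`.  Let `A` be the
Dedekind domain `K[x, y] / (H)`, let `ρ` be the rank of its class group, and let `u` be the rank of
`Aˣ / Kˣ`.  The exact sequence `0 → Aˣ/Kˣ → ℤ^s → Pic X → Cl A → 0` shows that the rank of `Pic⁰ X`, and
hence of `P_X(K)`, is `ρ + s - 1 - u`.  For a smooth reduction of the equation, transversal to infinity,
over a field with `q` elements the trace of the Frobenius on `H¹` is `q + 1` minus the number of the affine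
points minus the number of the rational zeros of `ψ`.

We assume that the total space of the family is rational over `M`, that is, that the function field
`E = K(C)` is purely transcendental over `M`: the total space `𝒳` is birational to `Z × ℙ^(l+2)`.  This
holds for the generic member of every linear system of curves of the above form over `M`.

Let `R` be any model of `K` over the integers of `k`, that is any integral domain which is finitely
generated as a ring, contains the integers of `k` and has the field of fractions `K`, and over which the
curve has an equation `G = 0`, and let `N` be any nonzero element of `R`, such that the fibres over the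
points with `N ≠ 0` are smooth and transversal to infinity.  Let `𝔄_v` be the fibre averages over the
points of `Spec R` above the prime `v` of `k` with `N ≠ 0`, divided by `q_v^m` (the other points of a
projective model of the base change `𝔄_v` by `O(q_v^{-1/2})`, which does not affect the residue).  Then
the series `∑ -𝔄_v log(q_v) q_v^{-s}` has the residue `rank P_X(K) = ρ + s - 1 - u` at `s = 1`.

The Albanese varieties of `𝒳` and `𝒴` are both the one of `Z`, so the `K/k`-trace `B` of `X` is zero, and
`𝔄* = 𝔄`.
-/

set_option autoImplicit false

namespace Pool.Agent.Results.MP_3d3918_nt.PlaneCurves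

open Polynomial NumberField IsDedekindDomain Filter Topology
open Pool.Agent.Y707.PR (HasResidue)

/-- All the monomials `x^i y^j` of the polynomial satisfy `i + h j ≤ g h`, and the coefficient of `y^g` is
`1`. Here `x` is the inner and `y` is the outer variable. -/
def IsPlane {R : Type} [CommRing R] (g h : ℕ) (H : R[X][X]) : Prop :=
  (∀ i j : ℕ, (H.coeff j).coeff i ≠ 0 → i + h * j ≤ g * h) ∧ (H.coeff g).coeff 0 = 1

/-- The derivative with respect to the inner variable. -/
noncomputable def derivX {R : Type} [CommRing R] (H : R[X][X]) : R[X][X] :=
  Bivariate.swap (derivative (Bivariate.swap H))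

/-- The affine curve `H = 0` is smooth: `H` and its two partial derivatives generate the unit ideal. -/
def IsSmooth {R : Type} [CommRing R] (H : R[X][X]) : Prop :=
  Ideal.span {H, derivative H, derivX H} = ⊤

/-- The polynomial `ψ = ∑ h_(h(g-j), j) y^j` of the points at infinity. -/
noncomputable def atInfinity {R : Type} [CommRing R] (g h : ℕ) (H : R[X][X]) : R[X] :=
  ∑ j ∈ Finset.range (g + 1), C ((H.coeff j).coeff (h * (g - j))) * X ^ j

/-- The curve is smooth and transversal to infinity. -/
def IsGood {R : Type} [CommRing R] (g h : ℕ) (H : R[X][X]) : Prop :=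
  IsSmooth H ∧ (atInfinity g h H).Separable

/-- The rank of the quotient of a commutative group by a subgroup. -/
noncomputable def quotientRank {U : Type} [CommGroup U] (V : Subgroup U) : Cardinal :=
  Module.rank ℤ (Additive (U ⧸ V))

/-- The rank of the group of the units of `A` modulo the nonzero constants. -/
noncomputable def unitRank (K A : Type) [Field K] [CommRing A] [Algebra K A] : Cardinal :=
  quotientRank (Units.map (algebraMap K A : K →* A)).range

/-- The number of the elements of the finite field `F` plus `1` minus the number of the points over `F` of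
the affine curve `P = 0` minus the number of its points over `F` at infinity: for a smooth fibre, which is
transversal to infinity, this is the trace of the Frobenius on `H¹` of the projective model. -/
noncomputable def trace (g h : ℕ) (F : Type) [Field F] (P : F[X][X]) : ℝ :=
  ((Nat.card F : ℝ) - Nat.card {z : F × F // evalEval z.1 z.2 P = 0}) +
    (1 - Nat.card {x : F // (atInfinity g h P).eval x = 0})

/-- The average `𝔄_v = q_v^{-m} ∑ a(fibre)` of the traces of the fibres of `G = 0` over the points of
`Spec R` above `v`, rational over the residue field of `v`, at which `N` does not vanish. -/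
noncomputable def average {k R : Type} [Field k] [NumberField k] [CommRing R] [Algebra (𝓞 k) R]
    (g h : ℕ) (G : R[X][X]) (N : R) (m : ℕ) (v : HeightOneSpectrum (𝓞 k)) : ℝ :=
  ((Nat.card (𝓞 k ⧸ v.asIdeal) : ℝ) ^ m)⁻¹ *
    ∑ᶠ φ : {φ : R →+* 𝓞 k ⧸ v.asIdeal //
      φ.comp (algebraMap (𝓞 k) R) = Ideal.Quotient.mk v.asIdeal ∧ φ N ≠ 0},
        trace g h (𝓞 k ⧸ v.asIdeal) (G.map (mapRingHom φ.1))

/-- **The analytic generalized Nagao conjecture for the smooth plane curves of weighted degree `g h` over
`M(w_0, ..., w_l)` with a rational total space, for an arbitrary finitely generated field `M` of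
characteristic zero and for every model.** -/
theorem result {k : Type} [Field k] [NumberField k] {M : Type} [Field M] [CharZero M] [Algebra k M]
    (hM : ∃ S : Finset M, Subfield.closure (S : Set M) = ⊤) {d : ℕ} (hd : Algebra.trdeg ℚ M = d)
    {K : Type} [Field K] [CharZero K] [Algebra M K] {l : ℕ} {w : Fin (l + 1) → K}
    (hw : AlgebraicIndependent M w) (hK : IntermediateField.adjoin M (Set.range w) = ⊤)
    {g h : ℕ} (hg : 0 < g) (hh : 0 < h) {H : K[X][X]} (hH : IsPlane g h H) (hs : IsGood g h H)
    -- the function field of the curve is purely transcendental over `M`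
    {E : Type} [Field E] [Algebra M E] [Algebra K E] [IsScalarTower M K E] [Algebra (AdjoinRoot H) E]
    [IsScalarTower K (AdjoinRoot H) E] [IsFractionRing (AdjoinRoot H) E]
    {z : Fin (l + 2) → E} (hz : AlgebraicIndependent M z)
    (hE : IntermediateField.adjoin M (Set.range z) = ⊤) :
    Algebra.trdeg ℚ K = (d + l + 1 : ℕ) ∧
    ∃ (_ : IsDedekindDomain (AdjoinRoot H)) (ρ u : ℕ),
      -- the algebraic side: the ranks are finite
      Module.rank ℤ (Additive (ClassGroup (AdjoinRoot H))) = (ρ : Cardinal) ∧
      unitRank K (AdjoinRoot H) = (u : Cardinal) ∧
      -- for every model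
      ∀ (R : Type) [CommRing R] [IsDomain R] [Algebra.FiniteType ℤ R] [Algebra R K]
        [IsFractionRing R K] [Algebra (𝓞 k) R],
        (∀ x : 𝓞 k, algebraMap R K (algebraMap (𝓞 k) R x) = algebraMap M K (algebraMap k M x)) →
        ∀ G : R[X][X], G.map (mapRingHom (algebraMap R K)) = H →
          -- the fibres are smooth and transversal to infinity outside a proper closed subset
          (∃ N : R, N ≠ 0 ∧ ∀ (F : Type) [Field F] (φ : R →+* F), φ N ≠ 0 →
            IsGood g h (G.map (mapRingHom φ))) ∧
          -- the analytic side: the residue at `s = 1` of the series of the `-𝔄_v`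
          ∀ N : R, N ≠ 0 → (∀ (F : Type) [Field F] (φ : R →+* F), φ N ≠ 0 →
            IsGood g h (G.map (mapRingHom φ))) → ∀ S : Finset (HeightOneSpectrum (𝓞 k)),
            HasResidue S (fun v => -average g h G N (d + l + 1) v) 1
              (((ρ : ℤ) + (Nat.card {q : K[X] // q.Monic ∧ Irreducible q ∧ q ∣ atInfinity g h H} : ℤ) -
                1 - (u : ℤ) : ℤ) : ℝ) := by
  classical
  have hH' : Pool.Agent.Run7.h642.PL.IsPl g h H := hH
  have hs' : Pool.Agent.Run7.h954.CP.IsSmooth H := hs.1
  have hψ : (Pool.Agent.Run7.h642.PL.psi g h H).Separable := hs.2
  have hpr : Prime H := Pool.Agent.Run7.h642.PL.pl_prime hg hh hH' hs' hψ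
  have hded : IsDedekindDomain (AdjoinRoot H) :=
    Pool.Agent.Run7.h642.PL.dedekind_smooth (hH'.monic hh).1 hpr hs'
  obtain ⟨ρ, u, hρ, hu, hm⟩ :=
    Pool.Agent.Run7.h642.PL.pl_model (k₀ := k) hM hd hw hK hz hE hg hh hH' hs' hψ
  have htr : Algebra.trdeg ℚ K = (d + (l + 1) : ℕ) := Pool.Agent.Run7.h954.CP.trdeg_rat hw hK hd
  refine ⟨htr, hded, ρ, u, hρ, hu, ?_⟩
  intro R _ _ _ _ _ _ hk G hG
  refine ⟨Pool.Agent.Run7.h642.PL.exists_good' (G := G) (K := K) (by rw [hG]; exact hs')
    (by rw [hG]; exact hψ), ?_⟩
  intro N hN hgd S
  have hnf := Pool.Agent.Run7.h642.PL.nfac_eq (Pool.Agent.Run7.h642.PL.psi_monic hH').1.ne_zero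
  obtain ⟨h2, h1⟩ := hm R hk G hG N hN hgd
  rw [hnf] at h2
  have h3 := Pool.Agent.Run7.h642.PL.res_negI (k := k) (Pool.Agent.Run7.h642.PL.piso_tp g h G)
    (N := N) (e := d + (l + 1)) h1 h2 S
  exact h3

end Pool.Agent.Results.MP_3d3918_nt.PlaneCurves
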