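import Pool.Agent.Run7.h642.NG.Mn

/-!
# The analytic generalized Nagao conjecture for the curves with a rational total space

Let `M` be a finitely generated field of characteristic zero and of transcendence degree `d` over `ℚ`,
which contains the number field `k`, and let `K = M(w_0, ..., w_l)` be the field of rational functions in
`l + 1` variables over `M`: the function field of a variety `𝒴 = Z × ℙ^(l+1)` over `k` of dimension
`m = d + l + 1`, where `Z` is any variety over `k` of dimension `d`, with the function field `M`.  Let `a`
and `b` be coprime positive integers, and let `C` be a smooth affine curve over `K` with the equation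

  `H(x, y) = y^a - x^b + ∑ h_ij x^i y^j = 0`, where the sum is over `a i + b j < a b`

(for instance every elliptic curve, every hyperelliptic curve with a rational Weierstrass point, every
smooth superelliptic curve `y^a = f(x)`, with `f` monic of degree prime to `a`).  Its smooth projective
model `X` has exactly one more point, which is rational over `K`.  Hence `P_X(K) = Pic⁰(X)` is the class
group of the Dedekind domain `K[x, y] / (H)`, and for a smooth reduction of the equation over a field with
`q` elements the trace of the Frobenius on `H¹` is `q` minus the number of the affine points.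

We assume that the total space of the family is rational over `M`, that is, that the function field
`E = K(C)` is purely transcendental over `M`: the total space `𝒳` is birational to `Z × ℙ^(l+2)`.

Let `R` be any model of `K` over the integers of `k`, that is any integral domain which is finitely
generated as a ring, contains the integers of `k` and has the field of fractions `K`, and over which the
curve has an equation `G = 0`, and let `N` be any nonzero element of `R`, such that for example the fibres
over the points with `N ≠ 0` are smooth.  Let `𝔄_v` be the fibre averages over the points of `Spec R`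
above the prime `v` of `k` with `N ≠ 0`, divided by `q_v^m` (the other points of a projective model of the
base change `𝔄_v` by `O(q_v^{-1/2})`, which does not affect the residue).  Then the series
`∑ 𝔄_v log(q_v) q_v^{-s}` has the residue `-rank P_X(K)` at `s = 1`.

The Albanese varieties of `𝒳` and `𝒴` are both the one of `Z`, so the `K/k`-trace `B` of `X` is zero, and
`𝔄* = 𝔄`.
-/

set_option autoImplicit false

namespace Pool.Agent.Results.MP_3d3918_nt.RationalTotalSpaces

open Polynomial NumberField IsDedekindDomain
open Pool.Agent.Y707.PR (HasResidue)

/-- The polynomial is `y^a - x^b` plus monomials `x^i y^j` with `a i + b j < a b`. Here `x` is the inner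
and `y` is the outer variable. -/
def IsCab {R : Type} [CommRing R] (a b : ℕ) (H : R[X][X]) : Prop :=
  ∀ i j : ℕ, ((H - (X ^ a - C (X ^ b))).coeff j).coeff i ≠ 0 → a * i + b * j < a * b

/-- The derivative with respect to the inner variable. -/
noncomputable def derivX {R : Type} [CommRing R] (H : R[X][X]) : R[X][X] :=
  Bivariate.swap (derivative (Bivariate.swap H))

/-- The affine curve `H = 0` is smooth: `H` and its two partial derivatives generate the unit ideal. -/
def IsSmooth {R : Type} [CommRing R] (H : R[X][X]) : Prop :=
  Ideal.span {H, derivative H, derivX H} = ⊤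

/-- The number of the elements of the finite field `F` minus the number of the points of the affine curve
`P = 0` over `F`: for a smooth fibre this is the trace of the Frobenius on `H¹` of the projective model. -/
noncomputable def trace (F : Type) [Field F] (P : F[X][X]) : ℝ :=
  (Nat.card F : ℝ) - Nat.card {z : F × F // evalEval z.1 z.2 P = 0}

/-- The average `𝔄_v = q_v^{-m} ∑ a(fibre)` of the traces of the fibres of `G = 0` over the points of
`Spec R` above `v`, rational over the residue field of `v`, at which `N` does not vanish. -/
noncomputable def average {k R : Type} [Field k] [NumberField k] [CommRing R] [Algebra (𝓞 k) R]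
    (G : R[X][X]) (N : R) (m : ℕ) (v : HeightOneSpectrum (𝓞 k)) : ℝ :=
  ((Nat.card (𝓞 k ⧸ v.asIdeal) : ℝ) ^ m)⁻¹ *
    ∑ᶠ φ : {φ : R →+* 𝓞 k ⧸ v.asIdeal //
      φ.comp (algebraMap (𝓞 k) R) = Ideal.Quotient.mk v.asIdeal ∧ φ N ≠ 0},
        trace (𝓞 k ⧸ v.asIdeal) (G.map (mapRingHom φ.1))

/-- **The analytic generalized Nagao conjecture for the curves `y^a - x^b + ... = 0` over
`M(w_0, ..., w_l)` with a rational total space, for an arbitrary finitely generated field `M` of
characteristic zero and for every model.** -/
theorem result {k : Type} [Field k] [NumberField k] {M : Type} [Field M] [CharZero M] [Algebra k M]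
    (hM : ∃ S : Finset M, Subfield.closure (S : Set M) = ⊤) {d : ℕ} (hd : Algebra.trdeg ℚ M = d)
    {K : Type} [Field K] [CharZero K] [Algebra M K] {l : ℕ} {w : Fin (l + 1) → K}
    (hw : AlgebraicIndependent M w) (hK : IntermediateField.adjoin M (Set.range w) = ⊤)
    {a b : ℕ} (ha : 0 < a) (hb : 0 < b) (hab : a.Coprime b) {H : K[X][X]} (hH : IsCab a b H)
    (hs : IsSmooth H)
    -- the function field of the curve is purely transcendental over `M`
    {E : Type} [Field E] [Algebra M E] [Algebra K E] [IsScalarTower M K E] [Algebra (AdjoinRoot H) E]
    [IsScalarTower K (AdjoinRoot H) E] [IsFractionRing (AdjoinRoot H) E]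
    {z : Fin (l + 2) → E} (hz : AlgebraicIndependent M z)
    (hE : IntermediateField.adjoin M (Set.range z) = ⊤) :
    Algebra.trdeg ℚ K = (d + l + 1 : ℕ) ∧
    ∃ (_ : IsDedekindDomain (AdjoinRoot H)) (r : ℕ),
      -- the algebraic side: the rank is finite
      Module.rank ℤ (Additive (ClassGroup (AdjoinRoot H))) = (r : Cardinal) ∧
      -- for every model
      ∀ (R : Type) [CommRing R] [IsDomain R] [Algebra.FiniteType ℤ R] [Algebra R K]
        [IsFractionRing R K] [Algebra (𝓞 k) R],
        (∀ x : 𝓞 k, algebraMap R K (algebraMap (𝓞 k) R x) = algebraMap M K (algebraMap k M x)) →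
        ∀ G : R[X][X], G.map (mapRingHom (algebraMap R K)) = H →
          -- the fibres are smooth outside a proper closed subset
          (∃ N : R, N ≠ 0 ∧ ∀ (F : Type) [Field F] (φ : R →+* F), φ N ≠ 0 →
            IsSmooth (G.map (mapRingHom φ))) ∧
          -- the analytic side: the residue at `s = 1` of the series of the `-𝔄_v`
          ∀ N : R, N ≠ 0 → ∀ S : Finset (HeightOneSpectrum (𝓞 k)),
            HasResidue S (fun v => -average G N (d + l + 1) v) 1 r := by
  classical
  have hH' : Pool.Agent.Run7.h954.CP.IsCab a b H := hH
  have hs' : Pool.Agent.Run7.h954.CP.IsSmooth H := hs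
  have hded : IsDedekindDomain (AdjoinRoot H) :=
    Pool.Agent.Run7.h954.CP.dedekind_cab ha hb hab hH' hs'
  obtain ⟨r, hr, h⟩ := Pool.Agent.Run7.h642.NG.cab_model (k₀ := k) hM hd hw hK hz hE ha hb hab hH'
  have htr : Algebra.trdeg ℚ K = (d + (l + 1) : ℕ) := Pool.Agent.Run7.h954.CP.trdeg_rat hw hK hd
  refine ⟨htr, hded, r, hr, ?_⟩
  intro R _ _ _ _ _ _ hk G hG
  refine ⟨Pool.Agent.Run7.h954.CP.exists_good (G := G) (K := K) (by rw [hG]; exact hs'), ?_⟩
  intro N hN S
  obtain ⟨h2, h1⟩ := h R hk G hG N hN
  have h3 := Pool.Agent.Run7.h642.NG.res_neg (k := k) (Pool.Agent.Run7.h642.NG.piso_tf G) (N := N)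
    (e := d + (l + 1)) h1 h2 S
  exact h3

end Pool.Agent.Results.MP_3d3918_nt.RationalTotalSpaces
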