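import Mathlib
import Pool.Agent.Run7.h508.BR.Zero
import Pool.Agent.Run7.h508.BR.Leo2
import Pool.Agent.Run7.h508.BR.Rsum

/-!
# The analytic generalized Nagao conjecture over all number fields and everywhere unramified
# extensions of prime degree

Let `f : 𝒳 → 𝒴` be a fibration over a number field `k`, with generic fibre `X`. For number fields
`K ⊇ k` the conjecture for `f` over `K` says that the series `-∑ 𝔄*_w log(q_w) q_w ^ (-s)` over the
primes `w` of `K` has the residue `rank(P_X(K(𝒴)) / τ B(K))` at `s = 1`.

If it holds over one totally complex field `K₀ ⊇ k`, and for every real place `v` of `k` over one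
field `E ⊇ k` with real places, all over `v` (for `k = ℚ`: over `ℚ`), then it holds over all number
fields `K ⊇ k` if and only if it holds for the difference between `L` and `K` for all totally
complex fields `K ⊇ k` and all everywhere unramified Galois extensions `L/K` of prime degree in which
the primes above a given integer `m` are completely split.
-/

set_option autoImplicit false
set_option linter.unusedSectionVars false

namespace Pool.Agent.Results.MP_3d3918_nt.UnramifiedExtensions

open NumberField IsDedekindDomain Filter Topology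
open Pool.Agent.Run7.h508.BR (RankFunctor)

/-- The prime of `k` below a prime of `K`. -/
noncomputable def below (k : Type) [Field k] [NumberField k] {K : Type} [Field K] [NumberField K]
    [Algebra k K] (w : HeightOneSpectrum (𝓞 K)) : HeightOneSpectrum (𝓞 k) where
  asIdeal := w.asIdeal.under (𝓞 k)
  isPrime := by
    have := w.isPrime
    infer_instance
  ne_bot := mt Ideal.eq_bot_of_comap_eq_bot w.ne_bot

/-- The series `∑ 𝔄*_w log(q_w) q_w ^ (-s)` over the primes `w` of `K`. The number `A v n` is the
average `𝔄*` over the fibres of `f` modulo `v` at the points of `𝒴` over the extension of degree `n` of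
the residue field of `v` (`0` at the primes of bad reduction); so the average at `w` is `A v f`, if
`v` is below `w` and `f` is the degree of the extension of the residue fields. -/
noncomputable def series {k : Type} [Field k] [NumberField k]
    (A : HeightOneSpectrum (𝓞 k) → ℕ → ℂ) (K : Type) [Field K] [NumberField K] [Algebra k K]
    (s : ℂ) : ℂ :=
  ∑' w : HeightOneSpectrum (𝓞 K), A (below k w) (w.asIdeal.inertiaDeg (𝓞 k)) *
    (Real.log (Ideal.absNorm w.asIdeal) : ℂ) / (Ideal.absNorm w.asIdeal : ℂ) ^ s

/-- The function `F`, defined for `Re s > Re s₀`, has a continuation to a neighbourhood of `s₀` which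
is analytic except for a pole of order at most one at `s₀`, with the residue `r`. -/
def HasResidue (F : ℂ → ℂ) (s₀ r : ℂ) : Prop :=
  ∃ H : ℂ → ℂ, AnalyticAt ℂ H s₀ ∧ ∀ᶠ s in 𝓝 s₀, s₀.re < s.re → F s = r / (s - s₀) + H s

/-- The analytic generalized Nagao conjecture over `K`; `D` is the functor
`K ↦ (P_X(K(𝒴)) / τ B(K)) ⊗ ℚ`. -/
def Nagao {k : Type} [Field k] [NumberField k] (A : HeightOneSpectrum (𝓞 k) → ℕ → ℂ)
    (D : RankFunctor k) (K : Type) [Field K] [NumberField K] [Algebra k K] : Prop :=
  HasResidue (fun s => -series A K s) 1 (D.rank K)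

/-- The conjecture for the difference between `L` and `K`. -/
def NagaoDifference {k : Type} [Field k] [NumberField k] (A : HeightOneSpectrum (𝓞 k) → ℕ → ℂ)
    (D : RankFunctor k) (K L : Type) [Field K] [NumberField K] [Algebra k K] [Field L]
    [NumberField L] [Algebra k L] : Prop :=
  HasResidue (fun s => -(series A L s - series A K s)) 1 ((D.rank L : ℂ) - (D.rank K : ℂ))

/-- All inertia groups of `L/K` are trivial, and the decomposition groups of the primes above `m`
are trivial. -/
def UnramifiedSplit (m : ℕ) (K L : Type) [Field K] [Field L] [Algebra K L] : Prop :=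
  ∀ P : Ideal (𝓞 L), P.IsMaximal → ∀ g : L ≃ₐ[K] L,
    ((∀ x y : 𝓞 L, (y : L) = g x → y - x ∈ P) → g = 1) ∧
    ((m : 𝓞 L) ∈ P → (∀ x y : 𝓞 L, (y : L) = g x → (y ∈ P ↔ x ∈ P)) → g = 1)

/-- The conjecture for the differences in the everywhere unramified extensions of prime degree,
split above `m`, of the totally complex fields `K ⊇ k`. -/
def UnramifiedCase {k : Type} [Field k] [NumberField k] (A : HeightOneSpectrum (𝓞 k) → ℕ → ℂ)
    (D : RankFunctor k) (m : ℕ) : Prop :=
  ∀ (K L : Type) [Field K] [NumberField K] [Field L] [NumberField L] [Algebra k K] [Algebra K L]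
    [Algebra k L] [IsScalarTower k K L] [IsGalois K L], IsTotallyComplex K →
    (Module.finrank K L).Prime → UnramifiedSplit m K L → NagaoDifference A D K L

/-- The number of the real embeddings of `K` over the embedding `v` of `k`. -/
noncomputable def realAbove {k : Type} [Field k] (v : k →+* ℂ) (K : Type) [Field K] [Algebra k K] :
    ℕ := Nat.card {χ : K →+* ℂ // ComplexEmbedding.IsReal χ ∧ χ.comp (algebraMap k K) = v}

section proof

open Pool.Agent.Run7.h508.BR Pool.Agent.K4H74.SC

lemma unrSplit_of {m : ℕ} {K L : Type} [Field K] [Field L] [Algebra K L]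
    (h : UnrSplit m K L) : UnramifiedSplit m K L := by
  intro P hP g
  refine ⟨fun h1 => (h P hP).1 g fun x => h1 x _ rfl, fun hm h1 => (h P hP).2 hm g fun x =>
    h1 x _ rfl⟩

variable {k : Type} [Field k] [NumberField k] (A : HeightOneSpectrum (𝓞 k) → ℕ → ℂ)

/-- the weights -/
def wt (y : HeightOneSpectrum (𝓞 k) × ℕ+) : ℂ := -A y.1 y.2

lemma series_eq (K : Type) [Field K] [NumberField K] [Algebra k K] (s : ℂ) :
    PrimeSer (wt A) K s = -series A K s := by
  rw [series, ← tsum_neg, PrimeSer]
  refine tsum_congr fun w => ?_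
  have h4 : wt A (idx k (w, (1 : ℕ+))) = -A (below k w) (w.asIdeal.inertiaDeg (𝓞 k)) := by
    change -A (below k w) (w.asIdeal.inertiaDeg (𝓞 k) * 1) = _
    rw [mul_one]
  rw [h4, neg_mul, neg_div]

lemma hasRes_iff (F : ℂ → ℂ) (r : ℂ) : HasRes F r ↔ HasResidue F 1 r := Iff.rfl

end proof

open Pool.Agent.Run7.h508.BR in
/-- **Main theorem.** Let `k` be a number field, `A` a bounded system of numbers (the averages
`𝔄*` of a fibration over `k`), `D` a functor with Galois descent
(`K ↦ (P_X(K(𝒴)) / τ B(K)) ⊗ ℚ`) and `m > 0`.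

* Suppose that the conjecture holds over a totally complex field `K₀ ⊇ k`, and for every real place
  `v` of `k` over a field `E ⊇ k` with real places, all over `v`. Then it holds over all number fields
  `K ⊇ k` if and only if `UnramifiedCase` holds.
* If `UnramifiedCase` holds, then for all totally complex `K₀ ⊇ k`, all `K_i ⊇ k` and integers `t_i`
  such that `∑ t_i r_v(K_i) = 0` for all real places `v` of `k`, the conjecture holds for
  `∑ t_i (K_i - K₀)`. -/
theorem result (k : Type) [Field k] [NumberField k] (A : HeightOneSpectrum (𝓞 k) → ℕ → ℂ) (C : ℝ)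
    (hA : ∀ (v : HeightOneSpectrum (𝓞 k)) (n : ℕ), ‖A v n‖ ≤ C)
    (D : RankFunctor k) (m : ℕ) (hm : m ≠ 0) :
    (∀ (K₀ : Type) [Field K₀] [NumberField K₀] [Algebra k K₀], IsTotallyComplex K₀ →
      Nagao A D K₀ → (∀ v : k →+* ℂ, ComplexEmbedding.IsReal v →
        ∃ (E : Type) (_ : Field E) (_ : NumberField E) (_ : Algebra k E), 0 < realAbove v E ∧
          (∀ v', v' ≠ v → realAbove v' E = 0) ∧ Nagao A D E) →
      ((∀ (K : Type) [Field K] [NumberField K] [Algebra k K], Nagao A D K) ↔
        UnramifiedCase A D m)) ∧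
    (UnramifiedCase A D m → ∀ (K₀ : Type) [Field K₀] [NumberField K₀] [Algebra k K₀],
      IsTotallyComplex K₀ → ∀ (ι : Type) [Fintype ι] (K : ι → Type) [∀ i, Field (K i)]
      [∀ i, NumberField (K i)] [∀ i, Algebra k (K i)] (t : ι → ℤ),
      (∀ v : k →+* ℂ, ∑ i, t i * (realAbove v (K i) : ℤ) = 0) →
      HasResidue (fun s => -∑ i, t i * (series A (K i) s - series A K₀ s)) 1
        (∑ i, t i * ((D.rank (K i) : ℂ) - (D.rank K₀ : ℂ)))) := by
  have ha : ∀ y, ‖wt A y‖ ≤ C := fun y => by
    rw [wt, norm_neg]
    exact hA _ _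
  have h1 : ∀ (K : Type) [Field K] [NumberField K] [Algebra k K],
      (resFun (wt A) ha D).f K = 0 ↔ Nagao A D K := by
    intro K _ _ _
    rw [res_iff, hasRes_iff, Nagao]
    have h2 : PrimeSer (wt A) K = fun s => -series A K s := funext fun s => series_eq A K s
    rw [h2]
  have h3 : ∀ (K L : Type) [Field K] [NumberField K] [Algebra k K] [Field L] [NumberField L]
      [Algebra k L], (resFun (wt A) ha D).f K = (resFun (wt A) ha D).f L ↔
        NagaoDifference A D K L := by
    intro K L _ _ _ _ _ _
    rw [res_pair, hasRes_iff, NagaoDifference]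
    have h2 : (fun s => PrimeSer (wt A) L s - PrimeSer (wt A) K s) =
        fun s => -(series A L s - series A K s) := by
      funext s
      rw [series_eq, series_eq]
      ring
    rw [h2]
  have hno : UnramifiedCase A D m → NoChange (resFun (wt A) ha D) m := by
    intro h K L _ _ _ _ _ _ _ _ _ hK hp hu
    exact (h3 K L).mpr (h K L hK hp (unrSplit_of hu))
  refine ⟨fun K₀ _ _ _ hK₀ h0 hreal => ⟨fun h => ?_, fun h K _ _ _ => ?_⟩,
    fun h K₀ _ _ _ hK₀ ι _ K _ _ _ t ht => ?_⟩
  · intro K L _ _ _ _ _ _ _ _ _ _ _ _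
    rw [← h3, (h1 K).mpr (h K), (h1 L).mpr (h L)]
  · rw [← h1]
    refine zero_of_real (resFun (wt A) ha D) hm (hno h) K₀ hK₀ ((h1 K₀).mpr h0) ?_ K
    intro v hv
    obtain ⟨E, e1, e2, e3, h4, h5, h6⟩ := hreal v hv
    exact ⟨E, e1, e2, e3, h4, h5, (h1 E).mpr h6⟩
  · have key := real_formula_int (resFun (wt A) ha D) hm (hno h) K₀ hK₀ K t ht
    have h4 := res_base (wt A) ha D K₀ K t key
    rw [hasRes_iff] at h4
    have h2 : (fun s => ∑ i, (t i : ℂ) * (PrimeSer (wt A) (K i) s - PrimeSer (wt A) K₀ s)) =
        fun s => -∑ i, t i * (series A (K i) s - series A K₀ s) := by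
      funext s
      rw [← Finset.sum_neg_distrib]
      refine Finset.sum_congr rfl fun i _ => ?_
      rw [series_eq, series_eq]
      ring
    rw [h2] at h4
    exact h4

end Pool.Agent.Results.MP_3d3918_nt.UnramifiedExtensions
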